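import Mathlib

/-!
# Two edge-disjoint perfect matchings: the combinatorial core of the reduction
-/

set_option autoImplicit false

namespace Pool.Agent.R544.CM

/-- The data of the construction: the number of cells, the number of clauses, the next cell of the
same variable, the cells of the occurrences, their clauses and their signs. -/
structure Data where
  /-- number of cells -/
  n : ℕ
  /-- number of clauses -/
  m : ℕ
  /-- next cell -/
  nx : ℕ → ℕ
  /-- the cell is the cell of an occurrence -/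
  att : ℕ → Prop
  /-- the clause of the occurrence -/
  cl : ℕ → ℕ
  /-- the sign of the occurrence -/
  pos : ℕ → Bool
  /-- next cells are cells -/
  nx_lt : ∀ i < n, nx i < n
  /-- the next cell determines the cell -/
  nx_inj : ∀ i < n, ∀ k < n, nx i = nx k → i = k

variable (D : Data)

/-- The vertices of the side `U`. -/
def InU (u : ℕ) : Prop := (u % 10 < 4 ∧ u / 10 < D.n) ∨ (u % 10 = 4 ∧ u / 10 < D.m)

/-- The vertices of the side `V`. -/
def InV (v : ℕ) : Prop := (5 ≤ v % 10 ∧ v % 10 < 9 ∧ v / 10 < D.n) ∨ (v % 10 = 9 ∧ v / 10 < D.m)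

/-- Edges of colour `1`. -/
def Ed1 (u v : ℕ) : Prop :=
  (∃ i, u = 10 * i ∧ v = 10 * i + 5) ∨ (∃ i, u = 10 * i + 1 ∧ v = 10 * i + 5) ∨
  (∃ i, u = 10 * i + 1 ∧ v = 10 * i + 6) ∨ (∃ i, u = 10 * D.nx i ∧ v = 10 * i + 6) ∨
  (∃ i, u = 10 * i + 2 ∧ v = 10 * i + 7) ∨ (∃ i, u = 10 * i + 3 ∧ v = 10 * i + 8) ∨
  (∃ i, u = 10 * i + 4 ∧ v = 10 * i + 9)

/-- Edges of colour `2`. -/
def Ed2 (u v : ℕ) : Prop :=
  (∃ i, u = 10 * i ∧ v = 10 * i + 7) ∨ (∃ i, u = 10 * i + 2 ∧ v = 10 * i + 5) ∨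
  (∃ i, u = 10 * i + 1 ∧ v = 10 * i + 8) ∨ (∃ i, u = 10 * i + 3 ∧ v = 10 * i + 6) ∨
  (∃ i, u = 10 * D.cl i + 4 ∧ v = 10 * i + 7 ∧ D.att i ∧ D.pos i = true) ∨
  (∃ i, u = 10 * D.cl i + 4 ∧ v = 10 * i + 8 ∧ D.att i ∧ D.pos i = false) ∨
  (∃ i, u = 10 * i + 2 ∧ v = 10 * D.cl i + 9 ∧ D.att i)

/-- The matchings. -/
def IsPM (M : Set (ℕ × ℕ)) : Prop :=
  (∀ u, InU D u → ∃! v, (u, v) ∈ M) ∧ (∀ v, InV D v → ∃! u, (u, v) ∈ M)

variable {D}

theorem fwd {M₁ M₂ : Set (ℕ × ℕ)}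
    (hE1 : ∀ u v, (u, v) ∈ M₁ → InU D u ∧ InV D v ∧ Ed1 D u v)
    (hE2 : ∀ u v, (u, v) ∈ M₂ → InU D u ∧ InV D v ∧ (Ed1 D u v ∨ Ed2 D u v))
    (h1 : IsPM D M₁) (h2 : IsPM D M₂) (hd : ∀ e ∈ M₁, e ∉ M₂) :
    ∃ σ : ℕ → Prop, (∀ i < D.n, (σ (D.nx i) ↔ σ i)) ∧
      ∀ j < D.m, ∃ i < D.n, D.att i ∧ D.cl i = j ∧ (σ i ↔ D.pos i = true) := by
  -- the first matching on the cycles
  have a1 : ∀ i < D.n, ((10 * i, 10 * i + 5) ∈ M₁ ↔ (10 * i + 1, 10 * i + 5) ∉ M₁) := by
    intro i hi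
    obtain ⟨u, hu, huniq⟩ := h1.2 (10 * i + 5) (Or.inl (by omega))
    have hc : u = 10 * i ∨ u = 10 * i + 1 := by
      rcases (hE1 _ _ hu).2.2 with ⟨k, h, h'⟩ | ⟨k, h, h'⟩ | ⟨k, h, h'⟩ | ⟨k, h, h'⟩ |
        ⟨k, h, h'⟩ | ⟨k, h, h'⟩ | ⟨k, h, h'⟩ <;> omega
    constructor
    · intro h h'
      have e1 := huniq _ h
      have e2 := huniq _ h'
      omega
    · intro h
      rcases hc with rfl | rfl
      · exact hu
      · exact absurd hu h
  have a2 : ∀ i < D.n, ((10 * i + 1, 10 * i + 5) ∈ M₁ ↔ (10 * i + 1, 10 * i + 6) ∉ M₁) := by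
    intro i hi
    obtain ⟨v, hv, huniq⟩ := h1.1 (10 * i + 1) (Or.inl (by omega))
    have hc : v = 10 * i + 5 ∨ v = 10 * i + 6 := by
      rcases (hE1 _ _ hv).2.2 with ⟨k, h, h'⟩ | ⟨k, h, h'⟩ | ⟨k, h, h'⟩ | ⟨k, h, h'⟩ |
        ⟨k, h, h'⟩ | ⟨k, h, h'⟩ | ⟨k, h, h'⟩ <;> omega
    constructor
    · intro h h'
      have e1 := huniq _ h
      have e2 := huniq _ h'
      omega
    · intro h
      rcases hc with rfl | rfl
      · exact hv
      · exact absurd hv h
  have a3 : ∀ i < D.n, ((10 * i + 1, 10 * i + 6) ∈ M₁ ↔ (10 * D.nx i, 10 * i + 6) ∉ M₁) := by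
    intro i hi
    obtain ⟨u, hu, huniq⟩ := h1.2 (10 * i + 6) (Or.inl (by omega))
    have hc : u = 10 * D.nx i ∨ u = 10 * i + 1 := by
      rcases (hE1 _ _ hu).2.2 with ⟨k, h, h'⟩ | ⟨k, h, h'⟩ | ⟨k, h, h'⟩ | ⟨k, h, h'⟩ |
        ⟨k, h, h'⟩ | ⟨k, h, h'⟩ | ⟨k, h, h'⟩
      · omega
      · omega
      · omega
      · have : k = i := by omega
        subst this
        exact Or.inl h
      · omega
      · omega
      · omega
    constructor
    · intro h h'
      have e1 := huniq _ h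
      have e2 := huniq _ h'
      omega
    · intro h
      rcases hc with rfl | rfl
      · exact absurd hu h
      · exact hu
  have a4 : ∀ i < D.n, ((10 * D.nx i, 10 * D.nx i + 5) ∈ M₁ ↔ (10 * D.nx i, 10 * i + 6) ∉ M₁) := by
    intro i hi
    have hnx := D.nx_lt i hi
    obtain ⟨v, hv, huniq⟩ := h1.1 (10 * D.nx i) (Or.inl (by omega))
    have hc : v = 10 * D.nx i + 5 ∨ v = 10 * i + 6 := by
      have hVv := (hE1 _ _ hv).2.1
      rcases (hE1 _ _ hv).2.2 with ⟨k, h, h'⟩ | ⟨k, h, h'⟩ | ⟨k, h, h'⟩ | ⟨k, h, h'⟩ |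
        ⟨k, h, h'⟩ | ⟨k, h, h'⟩ | ⟨k, h, h'⟩
      · omega
      · omega
      · omega
      · have hk : k < D.n := by
          rcases hVv with hVv | hVv <;> omega
        have := D.nx_inj i hi k hk (by omega)
        subst this
        exact Or.inr h'
      · omega
      · omega
      · omega
    constructor
    · intro h h'
      have e1 := huniq _ h
      have e2 := huniq _ h'
      omega
    · intro h
      rcases hc with rfl | rfl
      · exact hv
      · exact absurd hv h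
  -- forced edges of the first matching
  have b1 : ∀ i < D.n, (10 * i + 2, 10 * i + 7) ∈ M₁ := by
    intro i hi
    obtain ⟨v, hv, -⟩ := h1.1 (10 * i + 2) (Or.inl (by omega))
    have hc : v = 10 * i + 7 := by
      rcases (hE1 _ _ hv).2.2 with ⟨k, h, h'⟩ | ⟨k, h, h'⟩ | ⟨k, h, h'⟩ | ⟨k, h, h'⟩ |
        ⟨k, h, h'⟩ | ⟨k, h, h'⟩ | ⟨k, h, h'⟩ <;> omega
    rw [← hc]
    exact hv
  have b2 : ∀ i < D.n, (10 * i + 3, 10 * i + 8) ∈ M₁ := by
    intro i hi
    obtain ⟨v, hv, -⟩ := h1.1 (10 * i + 3) (Or.inl (by omega))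
    have hc : v = 10 * i + 8 := by
      rcases (hE1 _ _ hv).2.2 with ⟨k, h, h'⟩ | ⟨k, h, h'⟩ | ⟨k, h, h'⟩ | ⟨k, h, h'⟩ |
        ⟨k, h, h'⟩ | ⟨k, h, h'⟩ | ⟨k, h, h'⟩ <;> omega
    rw [← hc]
    exact hv
  have b3 : ∀ j < D.m, (10 * j + 4, 10 * j + 9) ∈ M₁ := by
    intro i hi
    obtain ⟨v, hv, -⟩ := h1.1 (10 * i + 4) (Or.inr (by omega))
    have hc : v = 10 * i + 9 := by
      rcases (hE1 _ _ hv).2.2 with ⟨k, h, h'⟩ | ⟨k, h, h'⟩ | ⟨k, h, h'⟩ | ⟨k, h, h'⟩ |
        ⟨k, h, h'⟩ | ⟨k, h, h'⟩ | ⟨k, h, h'⟩ <;> omega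
    rw [← hc]
    exact hv
  -- forced edges of the second matching
  have c1 : ∀ i < D.n, (10 * i + 3, 10 * i + 6) ∈ M₂ := by
    intro i hi
    obtain ⟨v, hv, -⟩ := h2.1 (10 * i + 3) (Or.inl (by omega))
    have hne := hd _ (b2 i hi)
    have hc : v = 10 * i + 6 := by
      have hne' : v ≠ 10 * i + 8 := by
        rintro rfl
        exact hne hv
      rcases (hE2 _ _ hv).2.2 with (⟨k, h, h'⟩ | ⟨k, h, h'⟩ | ⟨k, h, h'⟩ | ⟨k, h, h'⟩ |
        ⟨k, h, h'⟩ | ⟨k, h, h'⟩ | ⟨k, h, h'⟩) | (⟨k, h, h'⟩ | ⟨k, h, h'⟩ | ⟨k, h, h'⟩ | ⟨k, h, h'⟩ |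
        ⟨k, h, h', -⟩ | ⟨k, h, h', -⟩ | ⟨k, h, h', -⟩) <;> omega
    rw [← hc]
    exact hv
  -- the first edge of a cell
  refine ⟨fun i => (10 * i, 10 * i + 5) ∉ M₁, ?_, ?_⟩
  · intro i hi
    have h3 := a1 i hi
    have h4 := a2 i hi
    have h5 := a3 i hi
    have h6 := a4 i hi
    simp only
    tauto
  · intro j hj
    obtain ⟨v, hv, -⟩ := h2.1 (10 * j + 4) (Or.inr (by omega))
    have hne := hd _ (b3 j hj)
    have hc : ∃ i, D.cl i = j ∧ D.att i ∧ ((v = 10 * i + 7 ∧ D.pos i = true) ∨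
        (v = 10 * i + 8 ∧ D.pos i = false)) := by
      have hne' : v ≠ 10 * j + 9 := by
        rintro rfl
        exact hne hv
      rcases (hE2 _ _ hv).2.2 with (⟨k, h, h'⟩ | ⟨k, h, h'⟩ | ⟨k, h, h'⟩ | ⟨k, h, h'⟩ |
        ⟨k, h, h'⟩ | ⟨k, h, h'⟩ | ⟨k, h, h'⟩) | (⟨k, h, h'⟩ | ⟨k, h, h'⟩ | ⟨k, h, h'⟩ | ⟨k, h, h'⟩ |
        ⟨k, h, h', h3, h4⟩ | ⟨k, h, h', h3, h4⟩ | ⟨k, h, h', -⟩)
      · omega
      · omega
      · omega
      · omega
      · omega
      · omega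
      · omega
      · omega
      · omega
      · omega
      · omega
      · exact ⟨k, by omega, h3, Or.inl ⟨h', h4⟩⟩
      · exact ⟨k, by omega, h3, Or.inr ⟨h', h4⟩⟩
      · omega
    obtain ⟨i, hij, hatt, hv'⟩ := hc
    have hVv := (hE2 _ _ hv).2.1
    have hi : i < D.n := by
      rcases hVv with hVv | hVv <;> rcases hv' with ⟨hv', _⟩ | ⟨hv', _⟩ <;> omega
    refine ⟨i, hi, hatt, hij, ?_⟩
    rcases hv' with ⟨rfl, hp⟩ | ⟨rfl, hp⟩
    · -- a positive occurrence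
      obtain ⟨w, hw, -⟩ := h2.1 (10 * i) (Or.inl (by omega))
      have hw' : w = 10 * i + 5 := by
        have hn1 : w ≠ 10 * i + 7 := by
          rintro rfl
          have := (h2.2 (10 * i + 7) (Or.inl (by omega))).unique hv hw
          omega
        have hn2 : ∀ k < D.n, w ≠ 10 * k + 6 := by
          rintro k hk rfl
          have := (h2.2 (10 * k + 6) (Or.inl (by omega))).unique (c1 k hk) hw
          omega
        have hVw := (hE2 _ _ hw).2.1
        rcases (hE2 _ _ hw).2.2 with (⟨k, h, h'⟩ | ⟨k, h, h'⟩ | ⟨k, h, h'⟩ | ⟨k, h, h'⟩ |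
          ⟨k, h, h'⟩ | ⟨k, h, h'⟩ | ⟨k, h, h'⟩) | (⟨k, h, h'⟩ | ⟨k, h, h'⟩ | ⟨k, h, h'⟩ |
          ⟨k, h, h'⟩ | ⟨k, h, h', -⟩ | ⟨k, h, h', -⟩ | ⟨k, h, h', -⟩)
        · omega
        · omega
        · omega
        · exact absurd h' (hn2 k (by rcases hVw with hVw | hVw <;> omega))
        · omega
        · omega
        · omega
        · omega
        · omega
        · omega
        · omega
        · omega
        · omega
        · omega
      subst hw'
      simp only [hp, iff_true]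
      exact fun h => hd _ h hw
    · -- a negative occurrence
      obtain ⟨w, hw, -⟩ := h2.1 (10 * i + 1) (Or.inl (by omega))
      have hw' : w = 10 * i + 5 := by
        have hn1 : w ≠ 10 * i + 8 := by
          rintro rfl
          have := (h2.2 (10 * i + 8) (Or.inl (by omega))).unique hv hw
          omega
        have hn2 : ∀ k < D.n, w ≠ 10 * k + 6 := by
          rintro k hk rfl
          have := (h2.2 (10 * k + 6) (Or.inl (by omega))).unique (c1 k hk) hw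
          omega
        have hVw := (hE2 _ _ hw).2.1
        rcases (hE2 _ _ hw).2.2 with (⟨k, h, h'⟩ | ⟨k, h, h'⟩ | ⟨k, h, h'⟩ | ⟨k, h, h'⟩ |
          ⟨k, h, h'⟩ | ⟨k, h, h'⟩ | ⟨k, h, h'⟩) | (⟨k, h, h'⟩ | ⟨k, h, h'⟩ | ⟨k, h, h'⟩ |
          ⟨k, h, h'⟩ | ⟨k, h, h', -⟩ | ⟨k, h, h', -⟩ | ⟨k, h, h', -⟩)
        · omega
        · omega
        · exact absurd h' (hn2 k (by rcases hVw with hVw | hVw <;> omega))
        · omega
        · omega
        · omega
        · omega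
        · omega
        · omega
        · omega
        · omega
        · omega
        · omega
        · omega
      subst hw'
      simp only [hp, Bool.false_eq_true, iff_false, not_not]
      exact (a1 i hi).2 (fun h => hd _ h hw)

theorem nx_surj : ∀ k < D.n, ∃ i < D.n, D.nx i = k := by
  intro k hk
  let f : Fin D.n → Fin D.n := fun i => ⟨D.nx i, D.nx_lt i i.2⟩
  have hf : Function.Injective f := fun i j hij => by
    simp only [f, Fin.mk.injEq] at hij
    exact Fin.ext (D.nx_inj i i.2 j j.2 hij)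
  obtain ⟨i, hi⟩ := (Finite.injective_iff_surjective.1 hf) ⟨k, hk⟩
  refine ⟨i, i.2, ?_⟩
  simpa [f] using hi

/-- The first matching for the cell values `σ`. -/
def N1 (D : Data) (σ : ℕ → Prop) (u v : ℕ) : Prop :=
  (∃ i < D.n, (¬ σ i ∧ u = 10 * i ∧ v = 10 * i + 5) ∨ (¬ σ i ∧ u = 10 * i + 1 ∧ v = 10 * i + 6) ∨
    (σ i ∧ u = 10 * i + 1 ∧ v = 10 * i + 5) ∨ (σ i ∧ u = 10 * D.nx i ∧ v = 10 * i + 6) ∨
    (u = 10 * i + 2 ∧ v = 10 * i + 7) ∨ (u = 10 * i + 3 ∧ v = 10 * i + 8)) ∨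
  (∃ j < D.m, u = 10 * j + 4 ∧ v = 10 * j + 9)

/-- The second matching for the selected cells `S`. -/
def N2 (D : Data) (S : ℕ → Prop) (u v : ℕ) : Prop :=
  ∃ i < D.n, (¬ (S i ∧ D.pos i = true) ∧ u = 10 * i ∧ v = 10 * i + 7) ∨
    (¬ S i ∧ u = 10 * i + 2 ∧ v = 10 * i + 5) ∨
    (¬ (S i ∧ D.pos i = false) ∧ u = 10 * i + 1 ∧ v = 10 * i + 8) ∨
    (u = 10 * i + 3 ∧ v = 10 * i + 6) ∨
    (S i ∧ D.pos i = true ∧ u = 10 * i ∧ v = 10 * i + 5) ∨
    (S i ∧ D.pos i = false ∧ u = 10 * i + 1 ∧ v = 10 * i + 5) ∨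
    (S i ∧ D.pos i = true ∧ u = 10 * D.cl i + 4 ∧ v = 10 * i + 7) ∨
    (S i ∧ D.pos i = false ∧ u = 10 * D.cl i + 4 ∧ v = 10 * i + 8) ∨
    (S i ∧ u = 10 * i + 2 ∧ v = 10 * D.cl i + 9)

section Ctor

variable {S : ℕ → Prop} {k : ℕ} (hk : k < D.n)

include hk

theorem n2_1 (h : ¬ (S k ∧ D.pos k = true)) : N2 D S (10 * k) (10 * k + 7) :=
  ⟨k, hk, Or.inl ⟨h, rfl, rfl⟩⟩
theorem n2_2 (h : ¬ S k) : N2 D S (10 * k + 2) (10 * k + 5) :=
  ⟨k, hk, Or.inr (Or.inl ⟨h, rfl, rfl⟩)⟩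
theorem n2_3 (h : ¬ (S k ∧ D.pos k = false)) : N2 D S (10 * k + 1) (10 * k + 8) :=
  ⟨k, hk, Or.inr (Or.inr (Or.inl ⟨h, rfl, rfl⟩))⟩
theorem n2_4 : N2 D S (10 * k + 3) (10 * k + 6) :=
  ⟨k, hk, Or.inr (Or.inr (Or.inr (Or.inl ⟨rfl, rfl⟩)))⟩
theorem n2_5 (h : S k) (h' : D.pos k = true) : N2 D S (10 * k) (10 * k + 5) :=
  ⟨k, hk, Or.inr (Or.inr (Or.inr (Or.inr (Or.inl ⟨h, h', rfl, rfl⟩))))⟩
theorem n2_6 (h : S k) (h' : D.pos k = false) : N2 D S (10 * k + 1) (10 * k + 5) :=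
  ⟨k, hk, Or.inr (Or.inr (Or.inr (Or.inr (Or.inr (Or.inl ⟨h, h', rfl, rfl⟩)))))⟩
theorem n2_7 (h : S k) (h' : D.pos k = true) : N2 D S (10 * D.cl k + 4) (10 * k + 7) :=
  ⟨k, hk, Or.inr (Or.inr (Or.inr (Or.inr (Or.inr (Or.inr (Or.inl ⟨h, h', rfl, rfl⟩))))))⟩
theorem n2_8 (h : S k) (h' : D.pos k = false) : N2 D S (10 * D.cl k + 4) (10 * k + 8) :=
  ⟨k, hk, Or.inr (Or.inr (Or.inr (Or.inr (Or.inr (Or.inr (Or.inr (Or.inl ⟨h, h', rfl, rfl⟩)))))))⟩
theorem n2_9 (h : S k) : N2 D S (10 * k + 2) (10 * D.cl k + 9) :=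
  ⟨k, hk, Or.inr (Or.inr (Or.inr (Or.inr (Or.inr (Or.inr (Or.inr (Or.inr ⟨h, rfl, rfl⟩)))))))⟩

end Ctor

theorem isPM_N1 {σ : ℕ → Prop} (hσ : ∀ i < D.n, (σ (D.nx i) ↔ σ i)) :
    IsPM D {e | N1 D σ e.1 e.2} := by
  constructor
  · intro u hu
    simp only [Set.mem_ofPred_eq]
    rcases hu with ⟨h1, h2⟩ | ⟨h1, h2⟩
    · obtain ⟨k, hk⟩ : ∃ k, k = u / 10 := ⟨_, rfl⟩
      have h3 : u % 10 = 0 ∨ u % 10 = 1 ∨ u % 10 = 2 ∨ u % 10 = 3 := by omega
      rcases h3 with h3 | h3 | h3 | h3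
      · obtain rfl : u = 10 * k := by omega
        by_cases hs : σ k
        · obtain ⟨i, hi, hik⟩ := nx_surj (D := D) k (by omega)
          refine ⟨10 * i + 6, Or.inl ⟨i, hi, Or.inr (Or.inr (Or.inr (Or.inl
            ⟨(hσ i hi).1 (hik ▸ hs), by rw [hik], rfl⟩)))⟩, ?_⟩
          rintro v (⟨i', hi', h | h | h | h | h | h⟩ | ⟨j, hj, h⟩)
          · obtain rfl : i' = k := by omega
            exact absurd hs h.1
          · omega
          · omega
          · have := D.nx_inj i hi i' hi' (by omega)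
            omega
          · omega
          · omega
          · omega
        · refine ⟨10 * k + 5, Or.inl ⟨k, by omega, Or.inl ⟨hs, rfl, rfl⟩⟩, ?_⟩
          rintro v (⟨i', hi', h | h | h | h | h | h⟩ | ⟨j, hj, h⟩)
          · omega
          · omega
          · omega
          · have e : D.nx i' = k := by omega
            exact absurd ((hσ i' hi').2 h.1) (by rw [e]; exact hs)
          · omega
          · omega
          · omega
      · obtain rfl : u = 10 * k + 1 := by omega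
        by_cases hs : σ k
        · refine ⟨10 * k + 5, Or.inl ⟨k, by omega, Or.inr (Or.inr (Or.inl ⟨hs, rfl, rfl⟩))⟩, ?_⟩
          rintro v (⟨i', hi', h | h | h | h | h | h⟩ | ⟨j, hj, h⟩) <;> try omega
          obtain rfl : i' = k := by omega
          exact absurd hs h.1
        · refine ⟨10 * k + 6, Or.inl ⟨k, by omega, Or.inr (Or.inl ⟨hs, rfl, rfl⟩)⟩, ?_⟩
          rintro v (⟨i', hi', h | h | h | h | h | h⟩ | ⟨j, hj, h⟩) <;> try omega
          obtain rfl : i' = k := by omega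
          exact absurd h.1 hs
      · obtain rfl : u = 10 * k + 2 := by omega
        refine ⟨10 * k + 7, Or.inl ⟨k, by omega,
          Or.inr (Or.inr (Or.inr (Or.inr (Or.inl ⟨rfl, rfl⟩))))⟩, ?_⟩
        rintro v (⟨i', hi', h | h | h | h | h | h⟩ | ⟨j, hj, h⟩) <;> omega
      · obtain rfl : u = 10 * k + 3 := by omega
        refine ⟨10 * k + 8, Or.inl ⟨k, by omega,
          Or.inr (Or.inr (Or.inr (Or.inr (Or.inr ⟨rfl, rfl⟩))))⟩, ?_⟩
        rintro v (⟨i', hi', h | h | h | h | h | h⟩ | ⟨j, hj, h⟩) <;> omega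
    · obtain ⟨k, hk⟩ : ∃ k, k = u / 10 := ⟨_, rfl⟩
      obtain rfl : u = 10 * k + 4 := by omega
      refine ⟨10 * k + 9, Or.inr ⟨k, by omega, rfl, rfl⟩, ?_⟩
      rintro v (⟨i', hi', h | h | h | h | h | h⟩ | ⟨j, hj, h⟩) <;> omega
  · intro v hv
    simp only [Set.mem_ofPred_eq]
    rcases hv with ⟨h1, h1', h2⟩ | ⟨h1, h2⟩
    · obtain ⟨k, hk⟩ : ∃ k, k = v / 10 := ⟨_, rfl⟩
      have h3 : v % 10 = 5 ∨ v % 10 = 6 ∨ v % 10 = 7 ∨ v % 10 = 8 := by omega
      rcases h3 with h3 | h3 | h3 | h3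
      · obtain rfl : v = 10 * k + 5 := by omega
        by_cases hs : σ k
        · refine ⟨10 * k + 1, Or.inl ⟨k, by omega, Or.inr (Or.inr (Or.inl ⟨hs, rfl, rfl⟩))⟩, ?_⟩
          rintro v (⟨i', hi', h | h | h | h | h | h⟩ | ⟨j, hj, h⟩) <;> try omega
          obtain rfl : i' = k := by omega
          exact absurd hs h.1
        · refine ⟨10 * k, Or.inl ⟨k, by omega, Or.inl ⟨hs, rfl, rfl⟩⟩, ?_⟩
          rintro v (⟨i', hi', h | h | h | h | h | h⟩ | ⟨j, hj, h⟩) <;> try omega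
          obtain rfl : i' = k := by omega
          exact absurd h.1 hs
      · obtain rfl : v = 10 * k + 6 := by omega
        by_cases hs : σ k
        · refine ⟨10 * D.nx k, Or.inl ⟨k, by omega,
            Or.inr (Or.inr (Or.inr (Or.inl ⟨hs, rfl, rfl⟩)))⟩, ?_⟩
          rintro v (⟨i', hi', h | h | h | h | h | h⟩ | ⟨j, hj, h⟩) <;> try omega
          · obtain rfl : i' = k := by omega
            exact absurd hs h.1
          · obtain rfl : i' = k := by omega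
            exact h.2.1
        · refine ⟨10 * k + 1, Or.inl ⟨k, by omega, Or.inr (Or.inl ⟨hs, rfl, rfl⟩)⟩, ?_⟩
          rintro v (⟨i', hi', h | h | h | h | h | h⟩ | ⟨j, hj, h⟩) <;> try omega
          obtain rfl : i' = k := by omega
          exact absurd h.1 hs
      · obtain rfl : v = 10 * k + 7 := by omega
        refine ⟨10 * k + 2, Or.inl ⟨k, by omega,
          Or.inr (Or.inr (Or.inr (Or.inr (Or.inl ⟨rfl, rfl⟩))))⟩, ?_⟩
        rintro v (⟨i', hi', h | h | h | h | h | h⟩ | ⟨j, hj, h⟩) <;> omega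
      · obtain rfl : v = 10 * k + 8 := by omega
        refine ⟨10 * k + 3, Or.inl ⟨k, by omega,
          Or.inr (Or.inr (Or.inr (Or.inr (Or.inr ⟨rfl, rfl⟩))))⟩, ?_⟩
        rintro v (⟨i', hi', h | h | h | h | h | h⟩ | ⟨j, hj, h⟩) <;> omega
    · obtain ⟨k, hk⟩ : ∃ k, k = v / 10 := ⟨_, rfl⟩
      obtain rfl : v = 10 * k + 9 := by omega
      refine ⟨10 * k + 4, Or.inr ⟨k, by omega, rfl, rfl⟩, ?_⟩
      rintro v (⟨i', hi', h | h | h | h | h | h⟩ | ⟨j, hj, h⟩) <;> omega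

theorem isPM_N2 {S : ℕ → Prop} {g : ℕ → ℕ} (hS : ∀ i, S i ↔ ∃ j < D.m, g j = i)
    (hg : ∀ j < D.m, g j < D.n ∧ D.cl (g j) = j) :
    IsPM D {e | N2 D S e.1 e.2} := by
  have hS1 : ∀ j < D.m, S (g j) := fun j hj => (hS _).2 ⟨j, hj, rfl⟩
  have hS2 : ∀ i, S i → ∀ j, D.cl i = j → i = g j := by
    intro i hi j hj
    obtain ⟨j', hj', rfl⟩ := (hS i).1 hi
    rw [← hj, (hg j' hj').2]
  constructor
  · intro u hu
    simp only [Set.mem_ofPred_eq]
    rcases hu with ⟨h1, h2⟩ | ⟨h1, h2⟩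
    · obtain ⟨k, hk⟩ : ∃ k, k = u / 10 := ⟨_, rfl⟩
      have hkn : k < D.n := by omega
      have h3 : u % 10 = 0 ∨ u % 10 = 1 ∨ u % 10 = 2 ∨ u % 10 = 3 := by omega
      rcases h3 with h3 | h3 | h3 | h3
      · obtain rfl : u = 10 * k := by omega
        by_cases hs : S k ∧ D.pos k = true
        · refine ⟨10 * k + 5, n2_5 hkn hs.1 hs.2, ?_⟩
          · rintro v ⟨i', hi', h | h | h | h | h | h | h | h | h⟩ <;> try omega
            obtain rfl : i' = k := by omega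
            exact absurd hs h.1
        · refine ⟨10 * k + 7, n2_1 hkn hs, ?_⟩
          · rintro v ⟨i', hi', h | h | h | h | h | h | h | h | h⟩ <;> try omega
            obtain rfl : i' = k := by omega
            exact absurd ⟨h.1, h.2.1⟩ hs
      · obtain rfl : u = 10 * k + 1 := by omega
        by_cases hs : S k ∧ D.pos k = false
        · refine ⟨10 * k + 5, n2_6 hkn hs.1 hs.2, ?_⟩
          · rintro v ⟨i', hi', h | h | h | h | h | h | h | h | h⟩ <;> try omega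
            obtain rfl : i' = k := by omega
            exact absurd hs h.1
        · refine ⟨10 * k + 8, n2_3 hkn hs, ?_⟩
          · rintro v ⟨i', hi', h | h | h | h | h | h | h | h | h⟩ <;> try omega
            obtain rfl : i' = k := by omega
            exact absurd ⟨h.1, h.2.1⟩ hs
      · obtain rfl : u = 10 * k + 2 := by omega
        by_cases hs : S k
        · refine ⟨10 * D.cl k + 9, n2_9 hkn hs, ?_⟩
          · rintro v ⟨i', hi', h | h | h | h | h | h | h | h | h⟩ <;> try omega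
            · obtain rfl : i' = k := by omega
              exact absurd hs h.1
            · obtain rfl : i' = k := by omega
              exact h.2.2
        · refine ⟨10 * k + 5, n2_2 hkn hs, ?_⟩
          · rintro v ⟨i', hi', h | h | h | h | h | h | h | h | h⟩ <;> try omega
            obtain rfl : i' = k := by omega
            exact absurd h.1 hs
      · obtain rfl : u = 10 * k + 3 := by omega
        refine ⟨10 * k + 6, n2_4 hkn, ?_⟩
        · rintro v ⟨i', hi', h | h | h | h | h | h | h | h | h⟩ <;> omega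
    · obtain ⟨j, hj⟩ : ∃ j, j = u / 10 := ⟨_, rfl⟩
      have hjm : j < D.m := by omega
      obtain rfl : u = 10 * j + 4 := by omega
      have hs := hS1 j hjm
      obtain ⟨hg1, hg2⟩ := hg j hjm
      cases hp : D.pos (g j) with
      | true =>
        refine ⟨10 * g j + 7, by have := n2_7 hg1 hs hp; rwa [hg2] at this, ?_⟩
        · rintro v ⟨i', hi', h | h | h | h | h | h | h | h | h⟩ <;> try omega
          · have := hS2 i' h.1 j (by omega)
            omega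
          · have := hS2 i' h.1 j (by omega)
            subst this
            rw [hp] at h
            simp at h
      | false =>
        refine ⟨10 * g j + 8, by have := n2_8 hg1 hs hp; rwa [hg2] at this, ?_⟩
        · rintro v ⟨i', hi', h | h | h | h | h | h | h | h | h⟩ <;> try omega
          · have := hS2 i' h.1 j (by omega)
            subst this
            rw [hp] at h
            simp at h
          · have := hS2 i' h.1 j (by omega)
            omega
  · intro v hv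
    simp only [Set.mem_ofPred_eq]
    rcases hv with ⟨h1, h1', h2⟩ | ⟨h1, h2⟩
    · obtain ⟨k, hk⟩ : ∃ k, k = v / 10 := ⟨_, rfl⟩
      have hkn : k < D.n := by omega
      have h3 : v % 10 = 5 ∨ v % 10 = 6 ∨ v % 10 = 7 ∨ v % 10 = 8 := by omega
      rcases h3 with h3 | h3 | h3 | h3
      · obtain rfl : v = 10 * k + 5 := by omega
        by_cases hs : S k
        · cases hp : D.pos k with
          | true =>
            refine ⟨10 * k, n2_5 hkn hs hp, ?_⟩
            rintro v ⟨i', hi', h | h | h | h | h | h | h | h | h⟩ <;> try omega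
            · obtain rfl : i' = k := by omega
              exact absurd hs h.1
            · obtain rfl : i' = k := by omega
              rw [hp] at h
              simp at h
          | false =>
            refine ⟨10 * k + 1, n2_6 hkn hs hp, ?_⟩
            rintro v ⟨i', hi', h | h | h | h | h | h | h | h | h⟩ <;> try omega
            · obtain rfl : i' = k := by omega
              exact absurd hs h.1
            · obtain rfl : i' = k := by omega
              rw [hp] at h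
              simp at h
        · refine ⟨10 * k + 2, n2_2 hkn hs, ?_⟩
          rintro v ⟨i', hi', h | h | h | h | h | h | h | h | h⟩ <;> try omega
          · obtain rfl : i' = k := by omega
            exact absurd h.1 hs
          · obtain rfl : i' = k := by omega
            exact absurd h.1 hs
      · obtain rfl : v = 10 * k + 6 := by omega
        refine ⟨10 * k + 3, n2_4 hkn, ?_⟩
        rintro v ⟨i', hi', h | h | h | h | h | h | h | h | h⟩ <;> omega
      · obtain rfl : v = 10 * k + 7 := by omega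
        by_cases hs : S k ∧ D.pos k = true
        · refine ⟨10 * D.cl k + 4, n2_7 hkn hs.1 hs.2, ?_⟩
          rintro v ⟨i', hi', h | h | h | h | h | h | h | h | h⟩ <;> try omega
          · obtain rfl : i' = k := by omega
            exact absurd hs h.1
          · obtain rfl : i' = k := by omega
            exact h.2.2.1
        · refine ⟨10 * k, n2_1 hkn hs, ?_⟩
          rintro v ⟨i', hi', h | h | h | h | h | h | h | h | h⟩ <;> try omega
          obtain rfl : i' = k := by omega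
          exact absurd ⟨h.1, h.2.1⟩ hs
      · obtain rfl : v = 10 * k + 8 := by omega
        by_cases hs : S k ∧ D.pos k = false
        · refine ⟨10 * D.cl k + 4, n2_8 hkn hs.1 hs.2, ?_⟩
          rintro v ⟨i', hi', h | h | h | h | h | h | h | h | h⟩ <;> try omega
          · obtain rfl : i' = k := by omega
            exact absurd hs h.1
          · obtain rfl : i' = k := by omega
            exact h.2.2.1
        · refine ⟨10 * k + 1, n2_3 hkn hs, ?_⟩
          rintro v ⟨i', hi', h | h | h | h | h | h | h | h | h⟩ <;> try omega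
          obtain rfl : i' = k := by omega
          exact absurd ⟨h.1, h.2.1⟩ hs
    · obtain ⟨j, hj⟩ : ∃ j, j = v / 10 := ⟨_, rfl⟩
      have hjm : j < D.m := by omega
      obtain rfl : v = 10 * j + 9 := by omega
      have hs := hS1 j hjm
      obtain ⟨hg1, hg2⟩ := hg j hjm
      refine ⟨10 * g j + 2, by have := n2_9 hg1 hs; rwa [hg2] at this, ?_⟩
      rintro v ⟨i', hi', h | h | h | h | h | h | h | h | h⟩ <;> try omega
      have := hS2 i' h.1 j (by omega)
      omega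

theorem bwd {σ : ℕ → Prop} (hσ : ∀ i < D.n, (σ (D.nx i) ↔ σ i))
    (h : ∀ j < D.m, ∃ i < D.n, D.att i ∧ D.cl i = j ∧ (σ i ↔ D.pos i = true)) :
    ∃ M₁ M₂ : Set (ℕ × ℕ), (∀ u v, (u, v) ∈ M₁ → InU D u ∧ InV D v ∧ Ed1 D u v) ∧
      (∀ u v, (u, v) ∈ M₂ → InU D u ∧ InV D v ∧ (Ed1 D u v ∨ Ed2 D u v)) ∧
      IsPM D M₁ ∧ IsPM D M₂ ∧ ∀ e ∈ M₁, e ∉ M₂ := by
  classical
  choose! g hg1 hg2 hg3 hg4 using h
  let S : ℕ → Prop := fun i => ∃ j < D.m, g j = i
  refine ⟨{e | N1 D σ e.1 e.2}, {e | N2 D S e.1 e.2}, ?_, ?_, isPM_N1 hσ,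
    isPM_N2 (g := g) (fun i => Iff.rfl) (fun j hj => ⟨hg1 j hj, hg3 j hj⟩), ?_⟩
  · intro u v huv
    simp only [Set.mem_ofPred_eq] at huv
    rcases huv with ⟨i, hi, h | h | h | h | h | h⟩ | ⟨j, hj, h⟩
    · exact ⟨Or.inl (by omega), Or.inl (by omega), Or.inl ⟨i, h.2⟩⟩
    · exact ⟨Or.inl (by omega), Or.inl (by omega), Or.inr (Or.inr (Or.inl ⟨i, h.2⟩))⟩
    · exact ⟨Or.inl (by omega), Or.inl (by omega), Or.inr (Or.inl ⟨i, h.2⟩)⟩
    · have := D.nx_lt i hi
      exact ⟨Or.inl (by omega), Or.inl (by omega), Or.inr (Or.inr (Or.inr (Or.inl ⟨i, h.2⟩)))⟩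
    · exact ⟨Or.inl (by omega), Or.inl (by omega),
        Or.inr (Or.inr (Or.inr (Or.inr (Or.inl ⟨i, h⟩))))⟩
    · exact ⟨Or.inl (by omega), Or.inl (by omega),
        Or.inr (Or.inr (Or.inr (Or.inr (Or.inr (Or.inl ⟨i, h⟩)))))⟩
    · exact ⟨Or.inr (by omega), Or.inr (by omega),
        Or.inr (Or.inr (Or.inr (Or.inr (Or.inr (Or.inr ⟨j, h⟩)))))⟩
  · intro u v huv
    simp only [Set.mem_ofPred_eq] at huv
    have hcl : ∀ i, S i → D.cl i < D.m ∧ D.att i := by
      rintro i ⟨j, hj, rfl⟩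
      rw [hg3 j hj]
      exact ⟨hj, hg2 j hj⟩
    obtain ⟨i, hi, h | h | h | h | h | h | h | h | h⟩ := huv
    · exact ⟨Or.inl (by omega), Or.inl (by omega), Or.inr (Or.inl ⟨i, h.2⟩)⟩
    · exact ⟨Or.inl (by omega), Or.inl (by omega), Or.inr (Or.inr (Or.inl ⟨i, h.2⟩))⟩
    · exact ⟨Or.inl (by omega), Or.inl (by omega), Or.inr (Or.inr (Or.inr (Or.inl ⟨i, h.2⟩)))⟩
    · exact ⟨Or.inl (by omega), Or.inl (by omega),
        Or.inr (Or.inr (Or.inr (Or.inr (Or.inl ⟨i, h⟩))))⟩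
    · exact ⟨Or.inl (by omega), Or.inl (by omega), Or.inl (Or.inl ⟨i, h.2.2⟩)⟩
    · exact ⟨Or.inl (by omega), Or.inl (by omega), Or.inl (Or.inr (Or.inl ⟨i, h.2.2⟩))⟩
    · obtain ⟨h1, h2⟩ := hcl i h.1
      exact ⟨Or.inr (by omega), Or.inl (by omega), Or.inr (Or.inr (Or.inr (Or.inr (Or.inr
        (Or.inl ⟨i, h.2.2.1, h.2.2.2, h2, h.2.1⟩)))))⟩
    · obtain ⟨h1, h2⟩ := hcl i h.1
      exact ⟨Or.inr (by omega), Or.inl (by omega), Or.inr (Or.inr (Or.inr (Or.inr (Or.inr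
        (Or.inr (Or.inl ⟨i, h.2.2.1, h.2.2.2, h2, h.2.1⟩))))))⟩
    · obtain ⟨h1, h2⟩ := hcl i h.1
      exact ⟨Or.inl (by omega), Or.inr (by omega), Or.inr (Or.inr (Or.inr (Or.inr (Or.inr
        (Or.inr (Or.inr ⟨i, h.2.1, h.2.2, h2⟩))))))⟩
  · rintro ⟨u, v⟩ h1 h2
    simp only [Set.mem_ofPred_eq] at h1 h2
    have hsel : ∀ i, S i → (σ i ↔ D.pos i = true) := by
      rintro i ⟨j, hj, rfl⟩
      exact hg4 j hj
    obtain ⟨i', hi', h2⟩ := h2
    rcases h1 with ⟨i, hi, h1 | h1 | h1 | h1 | h1 | h1⟩ | ⟨j, hj, h1⟩ <;>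
      rcases h2 with h2 | h2 | h2 | h2 | h2 | h2 | h2 | h2 | h2 <;> try omega
    · obtain rfl : i = i' := by omega
      exact h1.1 ((hsel i h2.1).2 h2.2.1)
    · obtain rfl : i = i' := by omega
      have := (hsel i h2.1).1 h1.1
      rw [h2.2.1] at this
      simp at this

end Pool.Agent.R544.CM
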