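import Mathlib

/-!
# Two edge-disjoint perfect matchings, the first one monochromatic: the problem
-/

namespace Pool.Agent.R544.CM

/-- An instance `((U, V), E)`: the lists of the vertices of the two sides, and the list of the edges
`((u, v), c)` with their colours (`c = true` is the colour `1` and `c = false` is the colour
`2`). -/
abbrev Inst : Type := (List ℕ × List ℕ) × List ((ℕ × ℕ) × Bool)

/-- The instance is a finite bipartite graph with sides `U` and `V` whose edges have colours. -/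
def IsColouredBipartite (I : Inst) : Prop :=
  I.1.1.Nodup ∧ I.1.2.Nodup ∧ (∀ u ∈ I.1.1, u ∉ I.1.2) ∧ (I.2.map Prod.fst).Nodup ∧
    ∀ e ∈ I.2, e.1.1 ∈ I.1.1 ∧ e.1.2 ∈ I.1.2

/-- `M` is a perfect matching: a set of edges which covers every vertex exactly once. -/
def IsPerfectMatching (I : Inst) (M : Set (ℕ × ℕ)) : Prop :=
  (∀ e ∈ M, ∃ c, (e, c) ∈ I.2) ∧ (∀ u ∈ I.1.1, ∃! v, (u, v) ∈ M) ∧
    (∀ v ∈ I.1.2, ∃! u, (u, v) ∈ M)

/-- `COL-2PM`: the coloured bipartite graph has two edge-disjoint perfect matchings such that all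
edges of the first one have the colour `1`. -/
def COL2PM (I : Inst) : Prop :=
  IsColouredBipartite I ∧ ∃ M₁ M₂ : Set (ℕ × ℕ), IsPerfectMatching I M₁ ∧
    IsPerfectMatching I M₂ ∧ Disjoint M₁ M₂ ∧ ∀ e ∈ M₁, (e, true) ∈ I.2

end Pool.Agent.R544.CM
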