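import Pool.Agent.R544.Lits
import Pool.Agent.R544.CM.Core
import Pool.Agent.R544.CM.Defs

/-!
# Two edge-disjoint perfect matchings, the first one monochromatic: the reduction from 3SAT
-/

set_option autoImplicit false

namespace Pool.Agent.R544.CM

open Pool.Agent.NPC Pool.Agent.R544

/-- The data of the construction. -/
def dat (φ : F3) : Data where
  n := 3 * φ.length * (3 * φ.length)
  m := φ.length
  nx := nxt φ
  att := fun i => cell φ (i % (3 * φ.length)) = i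
  cl := fun i => i % (3 * φ.length) / 3
  pos := fun i => (lt φ (i % (3 * φ.length))).1
  nx_lt := fun _ hi => nxt_lt φ hi
  nx_inj := fun _ hi _ _ h => nxt_inj φ hi h

/-- Edges of colour `1`, decidable form. -/
def D1 (φ : F3) (u v : ℕ) : Prop :=
  (u % 10 = 0 ∧ v % 10 = 5 ∧ u / 10 = v / 10) ∨ (u % 10 = 1 ∧ v % 10 = 5 ∧ u / 10 = v / 10) ∨
  (u % 10 = 1 ∧ v % 10 = 6 ∧ u / 10 = v / 10) ∨
  (u % 10 = 0 ∧ v % 10 = 6 ∧ u / 10 = nxt φ (v / 10)) ∨
  (u % 10 = 2 ∧ v % 10 = 7 ∧ u / 10 = v / 10) ∨ (u % 10 = 3 ∧ v % 10 = 8 ∧ u / 10 = v / 10) ∨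
  (u % 10 = 4 ∧ v % 10 = 9 ∧ u / 10 = v / 10)

/-- Edges of colour `2`, decidable form. -/
def D2 (φ : F3) (u v : ℕ) : Prop :=
  (u % 10 = 0 ∧ v % 10 = 7 ∧ u / 10 = v / 10) ∨ (u % 10 = 2 ∧ v % 10 = 5 ∧ u / 10 = v / 10) ∨
  (u % 10 = 1 ∧ v % 10 = 8 ∧ u / 10 = v / 10) ∨ (u % 10 = 3 ∧ v % 10 = 6 ∧ u / 10 = v / 10) ∨
  (u % 10 = 4 ∧ v % 10 = 7 ∧ u / 10 = v / 10 % (3 * φ.length) / 3 ∧
    cell φ (v / 10 % (3 * φ.length)) = v / 10 ∧ (lt φ (v / 10 % (3 * φ.length))).1 = true) ∨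
  (u % 10 = 4 ∧ v % 10 = 8 ∧ u / 10 = v / 10 % (3 * φ.length) / 3 ∧
    cell φ (v / 10 % (3 * φ.length)) = v / 10 ∧ (lt φ (v / 10 % (3 * φ.length))).1 = false) ∨
  (u % 10 = 2 ∧ v % 10 = 9 ∧ v / 10 = u / 10 % (3 * φ.length) / 3 ∧
    cell φ (u / 10 % (3 * φ.length)) = u / 10)

/-- The vertices of the side `U`, decidable form. -/
def BU (φ : F3) (u : ℕ) : Prop :=
  (u % 10 < 4 ∧ u / 10 < 3 * φ.length * (3 * φ.length)) ∨ (u % 10 = 4 ∧ u / 10 < φ.length)

/-- The vertices of the side `V`, decidable form. -/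
def BV (φ : F3) (v : ℕ) : Prop :=
  (5 ≤ v % 10 ∧ v % 10 < 9 ∧ v / 10 < 3 * φ.length * (3 * φ.length)) ∨
    (v % 10 = 9 ∧ v / 10 < φ.length)

instance (φ : F3) (u v : ℕ) : Decidable (D1 φ u v) := by unfold D1; infer_instance
instance (φ : F3) (u v : ℕ) : Decidable (D2 φ u v) := by unfold D2; infer_instance
instance (φ : F3) (u : ℕ) : Decidable (BU φ u) := by unfold BU; infer_instance
instance (φ : F3) (u : ℕ) : Decidable (BV φ u) := by unfold BV; infer_instance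

theorem d1_iff (φ : F3) (u v : ℕ) : D1 φ u v ↔ Ed1 (dat φ) u v := by
  unfold D1 Ed1
  have hn : ∀ i, (dat φ).nx i = nxt φ i := fun _ => rfl
  constructor
  · rintro (h | h | h | h | h | h | h)
    · exact Or.inl ⟨v / 10, by omega, by omega⟩
    · exact Or.inr (Or.inl ⟨v / 10, by omega, by omega⟩)
    · exact Or.inr (Or.inr (Or.inl ⟨v / 10, by omega, by omega⟩))
    · exact Or.inr (Or.inr (Or.inr (Or.inl ⟨v / 10, by rw [hn]; omega, by omega⟩)))
    · exact Or.inr (Or.inr (Or.inr (Or.inr (Or.inl ⟨v / 10, by omega, by omega⟩))))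
    · exact Or.inr (Or.inr (Or.inr (Or.inr (Or.inr (Or.inl ⟨v / 10, by omega, by omega⟩)))))
    · exact Or.inr (Or.inr (Or.inr (Or.inr (Or.inr (Or.inr ⟨v / 10, by omega, by omega⟩)))))
  · rintro (⟨i, h, h'⟩ | ⟨i, h, h'⟩ | ⟨i, h, h'⟩ | ⟨i, h, h'⟩ | ⟨i, h, h'⟩ | ⟨i, h, h'⟩ |
      ⟨i, h, h'⟩)
    · left; omega
    · right; left; omega
    · right; right; left; omega
    · right; right; right; left
      have e : v / 10 = i := by omega
      rw [hn] at h
      rw [e]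
      omega
    · right; right; right; right; left; omega
    · right; right; right; right; right; left; omega
    · right; right; right; right; right; right; omega

theorem d2_iff (φ : F3) (u v : ℕ) : D2 φ u v ↔ Ed2 (dat φ) u v := by
  unfold D2 Ed2
  have hc : ∀ i, (dat φ).cl i = i % (3 * φ.length) / 3 := fun _ => rfl
  have ha : ∀ i, (dat φ).att i ↔ cell φ (i % (3 * φ.length)) = i := fun _ => Iff.rfl
  have hp : ∀ i, (dat φ).pos i = (lt φ (i % (3 * φ.length))).1 := fun _ => rfl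
  simp only [hc, ha, hp]
  constructor
  · rintro (h | h | h | h | ⟨h1, h2, h3, h4, h5⟩ | ⟨h1, h2, h3, h4, h5⟩ | ⟨h1, h2, h3, h4⟩)
    · exact Or.inl ⟨v / 10, by omega, by omega⟩
    · exact Or.inr (Or.inl ⟨v / 10, by omega, by omega⟩)
    · exact Or.inr (Or.inr (Or.inl ⟨v / 10, by omega, by omega⟩))
    · exact Or.inr (Or.inr (Or.inr (Or.inl ⟨v / 10, by omega, by omega⟩)))
    · exact Or.inr (Or.inr (Or.inr (Or.inr (Or.inl
        ⟨v / 10, by rw [← h3]; omega, by omega, h4, h5⟩))))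
    · exact Or.inr (Or.inr (Or.inr (Or.inr (Or.inr (Or.inl
        ⟨v / 10, by rw [← h3]; omega, by omega, h4, h5⟩)))))
    · exact Or.inr (Or.inr (Or.inr (Or.inr (Or.inr (Or.inr
        ⟨u / 10, by omega, by rw [← h3]; omega, h4⟩)))))
  · rintro (⟨i, h, h'⟩ | ⟨i, h, h'⟩ | ⟨i, h, h'⟩ | ⟨i, h, h'⟩ | ⟨i, h, h', h4, h5⟩ |
      ⟨i, h, h', h4, h5⟩ | ⟨i, h, h', h4⟩)
    · left; omega
    · right; left; omega
    · right; right; left; omega
    · right; right; right; left; omega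
    · right; right; right; right; left
      have e : v / 10 = i := by omega
      rw [e]
      exact ⟨by omega, by omega, by omega, h4, h5⟩
    · right; right; right; right; right; left
      have e : v / 10 = i := by omega
      rw [e]
      exact ⟨by omega, by omega, by omega, h4, h5⟩
    · right; right; right; right; right; right
      have e : u / 10 = i := by omega
      rw [e]
      exact ⟨by omega, by omega, by omega, h4⟩

/-- A bound for the vertices. -/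
def bd (φ : F3) : ℕ := 10 * (3 * φ.length * (3 * φ.length) + φ.length)

/-- The side `U`. -/
def lU (φ : F3) : List ℕ := (List.range (bd φ)).filter (fun u => decide (BU φ u))

/-- The side `V`. -/
def lV (φ : F3) : List ℕ := (List.range (bd φ)).filter (fun u => decide (BV φ u))

/-- The instance. -/
def red (φ : F3) : Inst :=
  ((lU φ, lV φ), ((lU φ ×ˢ lV φ).filter (fun e => decide (D1 φ e.1 e.2 ∨ D2 φ e.1 e.2))).map
    (fun e => (e, decide (D1 φ e.1 e.2))))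

theorem uPoly_bd : UPoly bd := by
  unfold bd
  have h : UPoly (fun φ : F3 => φ.length) := UPoly.length (by fun_prop)
  exact UPoly.mul (UPoly.const 10) (UPoly.add (UPoly.mul (UPoly.mul (UPoly.const 3) h)
    (UPoly.mul (UPoly.const 3) h)) h)

theorem pp_BU : PP (fun x : F3 × ℕ => BU x.1 x.2) := by
  unfold BU
  exact PP.or (PP.and (PP.lt (by fun_prop) (by fun_prop)) (PP.lt (by fun_prop) (by fun_prop)))
    (PP.and (PP.eq (by fun_prop) (by fun_prop)) (PP.lt (by fun_prop) (by fun_prop)))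

theorem pp_BV : PP (fun x : F3 × ℕ => BV x.1 x.2) := by
  unfold BV
  exact PP.or (PP.and (PP.le (by fun_prop) (by fun_prop))
    (PP.and (PP.lt (by fun_prop) (by fun_prop)) (PP.lt (by fun_prop) (by fun_prop))))
    (PP.and (PP.eq (by fun_prop) (by fun_prop)) (PP.lt (by fun_prop) (by fun_prop)))

theorem pp_and3 {α β γ δ : Type} [TEnc α] [TEnc β] [TEnc γ] [TEnc δ] {a a' : α → β} {b b' : α → γ}
    {c c' : α → δ} (ha : NPC.Poly a) (ha' : NPC.Poly a') (hb : NPC.Poly b) (hb' : NPC.Poly b')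
    (hc : NPC.Poly c) (hc' : NPC.Poly c') :
    PP (fun x => a x = a' x ∧ b x = b' x ∧ c x = c' x) :=
  PP.and (PP.eq ha ha') (PP.and (PP.eq hb hb') (PP.eq hc hc'))

theorem pp_D1 : PP (fun x : F3 × (ℕ × ℕ) => D1 x.1 x.2.1 x.2.2) := by
  unfold D1
  refine PP.or ?_ (PP.or ?_ (PP.or ?_ (PP.or ?_ (PP.or ?_ (PP.or ?_ ?_))))) <;>
    exact pp_and3 (by fun_prop) (by fun_prop) (by fun_prop) (by fun_prop) (by fun_prop)
      (by fun_prop)

theorem pp_D2 : PP (fun x : F3 × (ℕ × ℕ) => D2 x.1 x.2.1 x.2.2) := by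
  unfold D2
  refine PP.or ?_ (PP.or ?_ (PP.or ?_ (PP.or ?_ (PP.or ?_ (PP.or ?_ ?_)))))
  · exact pp_and3 (by fun_prop) (by fun_prop) (by fun_prop) (by fun_prop) (by fun_prop)
      (by fun_prop)
  · exact pp_and3 (by fun_prop) (by fun_prop) (by fun_prop) (by fun_prop) (by fun_prop)
      (by fun_prop)
  · exact pp_and3 (by fun_prop) (by fun_prop) (by fun_prop) (by fun_prop) (by fun_prop)
      (by fun_prop)
  · exact pp_and3 (by fun_prop) (by fun_prop) (by fun_prop) (by fun_prop) (by fun_prop)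
      (by fun_prop)
  · exact PP.and (PP.eq (by fun_prop) (by fun_prop)) (PP.and (PP.eq (by fun_prop) (by fun_prop))
      (pp_and3 (by fun_prop) (by fun_prop) (by fun_prop) (by fun_prop) (by fun_prop)
      (by fun_prop)))
  · exact PP.and (PP.eq (by fun_prop) (by fun_prop)) (PP.and (PP.eq (by fun_prop) (by fun_prop))
      (pp_and3 (by fun_prop) (by fun_prop) (by fun_prop) (by fun_prop) (by fun_prop)
      (by fun_prop)))
  · exact PP.and (PP.eq (by fun_prop) (by fun_prop))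
      (pp_and3 (by fun_prop) (by fun_prop) (by fun_prop) (by fun_prop) (by fun_prop)
      (by fun_prop))

theorem poly_lU : NPC.Poly lU := PP.filter (l := fun φ => List.range (bd φ)) uPoly_bd.range pp_BU

theorem poly_lV : NPC.Poly lV := PP.filter (l := fun φ => List.range (bd φ)) uPoly_bd.range pp_BV

theorem poly_red : NPC.Poly red := by
  unfold red
  have h1 := poly_lU
  have h2 := poly_lV
  have h3 : NPC.Poly (fun x : F3 × (ℕ × ℕ) => decide (D1 x.1 x.2.1 x.2.2)) := PP.dec pp_D1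
  have h4 : NPC.Poly (fun φ : F3 => lU φ ×ˢ lV φ) := by fun_prop
  exact NPC.Poly.pair (NPC.Poly.pair h1 h2) (NPC.Poly.map
    (F := fun (φ : F3) (e : ℕ × ℕ) => (e, decide (D1 φ e.1 e.2)))
    (PP.filter (l := fun φ : F3 => lU φ ×ˢ lV φ)
      (r := fun (φ : F3) (e : ℕ × ℕ) => D1 φ e.1 e.2 ∨ D2 φ e.1 e.2) h4 (PP.or pp_D1 pp_D2))
    (NPC.Poly.pair (NPC.Poly.snd NPC.Poly.id) h3))

/-! ### The instance -/

theorem mem_lU {φ : F3} {u : ℕ} : u ∈ lU φ ↔ InU (dat φ) u := by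
  unfold lU
  rw [List.mem_filter, List.mem_range, decide_eq_true_iff]
  change u < bd φ ∧ BU φ u ↔ BU φ u
  refine ⟨fun h => h.2, fun h => ⟨?_, h⟩⟩
  unfold bd BU at *
  omega

theorem mem_lV {φ : F3} {v : ℕ} : v ∈ lV φ ↔ InV (dat φ) v := by
  unfold lV
  rw [List.mem_filter, List.mem_range, decide_eq_true_iff]
  change v < bd φ ∧ BV φ v ↔ BV φ v
  refine ⟨fun h => h.2, fun h => ⟨?_, h⟩⟩
  unfold bd BV at *
  omega

theorem mem_E {φ : F3} {u v : ℕ} {c : Bool} : ((u, v), c) ∈ (red φ).2 ↔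
    InU (dat φ) u ∧ InV (dat φ) v ∧ (Ed1 (dat φ) u v ∨ Ed2 (dat φ) u v) ∧
      (c = true ↔ Ed1 (dat φ) u v) := by
  unfold red
  simp only [List.mem_map, List.mem_filter, List.mem_product, Prod.exists, Prod.mk.injEq,
    decide_eq_true_eq, mem_lU, mem_lV, d1_iff, d2_iff]
  constructor
  · rintro ⟨a, b, ⟨⟨h1, h2⟩, h3⟩, ⟨rfl, rfl⟩, rfl⟩
    exact ⟨h1, h2, h3, by simp [d1_iff]⟩
  · rintro ⟨h1, h2, h3, h4⟩
    refine ⟨u, v, ⟨⟨h1, h2⟩, h3⟩, ⟨rfl, rfl⟩, ?_⟩
    cases c with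
    | true => simpa [d1_iff] using h4
    | false => simpa [d1_iff] using h4

theorem isBip (φ : F3) : IsColouredBipartite (red φ) := by
  refine ⟨List.nodup_range.filter _, List.nodup_range.filter _, ?_, ?_, ?_⟩
  · intro u hu hu'
    have h1 := mem_lU.1 hu
    have h2 := mem_lV.1 hu'
    unfold InU at h1
    unfold InV at h2
    omega
  · unfold red
    simp only [List.map_map]
    have : (Prod.fst ∘ fun e : ℕ × ℕ => (e, decide (D1 φ e.1 e.2))) = id := rfl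
    rw [this, List.map_id]
    exact (List.Nodup.product (List.nodup_range.filter _) (List.nodup_range.filter _)).filter _
  · rintro ⟨⟨u, v⟩, c⟩ he
    have := mem_E.1 he
    exact ⟨mem_lU.2 this.1, mem_lV.2 this.2.1⟩

theorem red_correct {φ : F3} (hb : Bounded3 φ) : SAT3 φ ↔ COL2PM (red φ) := by
  have hU : ∀ u, u ∈ (red φ).1.1 ↔ InU (dat φ) u := fun u => mem_lU
  have hV : ∀ u, u ∈ (red φ).1.2 ↔ InV (dat φ) u := fun u => mem_lV
  rw [sat3_iff_cells hb]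
  constructor
  · rintro ⟨σ, hσ, h⟩
    obtain ⟨M₁, M₂, h1, h2, h3, h4, h5⟩ := bwd (D := dat φ) (σ := σ) hσ h
    refine ⟨isBip φ, M₁, M₂, ⟨?_, ?_, ?_⟩, ⟨?_, ?_, ?_⟩, ?_, ?_⟩
    · rintro ⟨u, v⟩ he
      obtain ⟨a, b, c⟩ := h1 u v he
      exact ⟨true, mem_E.2 ⟨a, b, Or.inl c, by simpa using c⟩⟩
    · exact fun u hu => h3.1 u ((hU u).1 hu)
    · exact fun u hu => h3.2 u ((hV u).1 hu)
    · rintro ⟨u, v⟩ he
      obtain ⟨a, b, c⟩ := h2 u v he
      by_cases hc : Ed1 (dat φ) u v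
      · exact ⟨true, mem_E.2 ⟨a, b, c, by simpa using hc⟩⟩
      · exact ⟨false, mem_E.2 ⟨a, b, c, by simpa using hc⟩⟩
    · exact fun u hu => h4.1 u ((hU u).1 hu)
    · exact fun u hu => h4.2 u ((hV u).1 hu)
    · exact Set.disjoint_left.2 h5
    · rintro ⟨u, v⟩ he
      obtain ⟨a, b, c⟩ := h1 u v he
      exact mem_E.2 ⟨a, b, Or.inl c, by simpa using c⟩
  · rintro ⟨-, M₁, M₂, h1, h2, h3, h4⟩
    refine fwd (D := dat φ) (M₁ := M₁) (M₂ := M₂) ?_ ?_ ?_ ?_ ?_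
    · intro u v he
      obtain ⟨a, b, c, d⟩ := mem_E.1 (h4 _ he)
      exact ⟨a, b, d.1 rfl⟩
    · intro u v he
      obtain ⟨c, hc⟩ := h2.1 _ he
      obtain ⟨a, b, c, d⟩ := mem_E.1 hc
      exact ⟨a, b, c⟩
    · exact ⟨fun u hu => h1.2.1 u ((hU u).2 hu), fun u hu => h1.2.2 u ((hV u).2 hu)⟩
    · exact ⟨fun u hu => h2.2.1 u ((hU u).2 hu), fun u hu => h2.2.2 u ((hV u).2 hu)⟩
    · exact fun e he he' => Set.disjoint_left.1 h3 he he'

theorem hardPr_CM : HardPr IsColouredBipartite COL2PM :=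
  hardPr_SAT3b.trans poly_red (fun φ _ => isBip φ) fun _ h => red_correct h.2.1

/-! ### Membership in NP -/

/-- Perfect matchings given by lists. -/
def LM (I : Inst) (l : List (ℕ × ℕ)) : Prop :=
  (∀ u ∈ I.1.1, ∃ v ∈ I.1.2, (u, v) ∈ l) ∧ (∀ v ∈ I.1.2, ∃ u ∈ I.1.1, (u, v) ∈ l) ∧
    ∀ e ∈ l, ∀ f ∈ l, (e.1 = f.1 ∨ e.2 = f.2) → e = f

/-- The test of a certificate, two lists of edges. -/
def Ver (I : Inst) (w : List (ℕ × ℕ) × List (ℕ × ℕ)) : Prop :=
  IsColouredBipartite I ∧ (∀ e ∈ w.1, (e, true) ∈ I.2) ∧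
    (∀ e ∈ w.2, (e, true) ∈ I.2 ∨ (e, false) ∈ I.2) ∧ (∀ e ∈ w.1, e ∉ w.2) ∧ LM I w.1 ∧ LM I w.2

theorem pp_LM : PP (fun x : Inst × List (ℕ × ℕ) => LM x.1 x.2) := by
  unfold LM
  refine PP.and ?_ (PP.and ?_ ?_)
  · exact PP.ball (l := fun x : Inst × List (ℕ × ℕ) => x.1.1.1)
      (r := fun x u => ∃ v ∈ x.1.1.2, (u, v) ∈ x.2) (by fun_prop)
      (PP.bex (l := fun x : (Inst × List (ℕ × ℕ)) × ℕ => x.1.1.1.2)
        (r := fun x v => (x.2, v) ∈ x.1.2) (by fun_prop) (PP.mem (by fun_prop) (by fun_prop)))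
  · exact PP.ball (l := fun x : Inst × List (ℕ × ℕ) => x.1.1.2)
      (r := fun x v => ∃ u ∈ x.1.1.1, (u, v) ∈ x.2) (by fun_prop)
      (PP.bex (l := fun x : (Inst × List (ℕ × ℕ)) × ℕ => x.1.1.1.1)
        (r := fun x u => (u, x.2) ∈ x.1.2) (by fun_prop) (PP.mem (by fun_prop) (by fun_prop)))
  · refine PP.ball (l := fun x : Inst × List (ℕ × ℕ) => x.2)
      (r := fun x e => ∀ f ∈ x.2, (e.1 = f.1 ∨ e.2 = f.2) → e = f) (by fun_prop)
      (PP.ball (l := fun x : (Inst × List (ℕ × ℕ)) × (ℕ × ℕ) => x.1.2)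
        (r := fun x f => (x.2.1 = f.1 ∨ x.2.2 = f.2) → x.2 = f) (by fun_prop) ?_)
    refine PP.congr (PP.or (PP.not (PP.or (PP.eq (f := fun x : ((Inst × List (ℕ × ℕ)) × (ℕ × ℕ)) ×
      (ℕ × ℕ) => x.1.2.1) (g := fun x => x.2.1) (by fun_prop) (by fun_prop))
      (PP.eq (f := fun x => x.1.2.2) (g := fun x => x.2.2) (by fun_prop) (by fun_prop))))
      (PP.eq (f := fun x => x.1.2) (g := fun x => x.2) (by fun_prop) (by fun_prop))) fun x => ?_
    exact imp_iff_not_or.symm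

theorem pp_bip : PP IsColouredBipartite := by
  unfold IsColouredBipartite
  refine PP.and (Pool.Agent.Y592.OP.pp_nodup (by fun_prop)) (PP.and
    (Pool.Agent.Y592.OP.pp_nodup (by fun_prop)) (PP.and ?_ (PP.and
    (Pool.Agent.Y592.OP.pp_nodup (by fun_prop)) ?_)))
  · exact PP.ball (l := fun I : Inst => I.1.1) (r := fun I u => u ∉ I.1.2) (by fun_prop)
      (PP.not (PP.mem (by fun_prop) (by fun_prop)))
  · exact PP.ball (l := fun I : Inst => I.2) (r := fun I e => e.1.1 ∈ I.1.1 ∧ e.1.2 ∈ I.1.2)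
      (by fun_prop) (PP.and (PP.mem (by fun_prop) (by fun_prop))
        (PP.mem (by fun_prop) (by fun_prop)))

theorem pp_ver : PP (fun x : Inst × (List (ℕ × ℕ) × List (ℕ × ℕ)) => Ver x.1 x.2) := by
  unfold Ver
  refine PP.and (pp_bip.comp (by fun_prop)) (PP.and ?_ (PP.and ?_ (PP.and ?_ (PP.and ?_ ?_))))
  · exact PP.ball (l := fun x : Inst × (List (ℕ × ℕ) × List (ℕ × ℕ)) => x.2.1)
      (r := fun x e => (e, true) ∈ x.1.2) (by fun_prop) (PP.mem (by fun_prop) (by fun_prop))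
  · exact PP.ball (l := fun x : Inst × (List (ℕ × ℕ) × List (ℕ × ℕ)) => x.2.2)
      (r := fun x e => (e, true) ∈ x.1.2 ∨ (e, false) ∈ x.1.2) (by fun_prop)
      (PP.or (PP.mem (by fun_prop) (by fun_prop)) (PP.mem (by fun_prop) (by fun_prop)))
  · exact PP.ball (l := fun x : Inst × (List (ℕ × ℕ) × List (ℕ × ℕ)) => x.2.1)
      (r := fun x e => e ∉ x.2.2) (by fun_prop) (PP.not (PP.mem (by fun_prop) (by fun_prop)))
  · exact pp_LM.comp (f := fun x : Inst × (List (ℕ × ℕ) × List (ℕ × ℕ)) => (x.1, x.2.1))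
      (by fun_prop)
  · exact pp_LM.comp (f := fun x : Inst × (List (ℕ × ℕ) × List (ℕ × ℕ)) => (x.1, x.2.2))
      (by fun_prop)

theorem isPM_of_LM {I : Inst} {l : List (ℕ × ℕ)}
    (h : LM I l) (hE : ∀ e ∈ l, ∃ c, (e, c) ∈ I.2) : IsPerfectMatching I {e | e ∈ l} := by
  refine ⟨hE, ?_, ?_⟩
  · intro u hu
    obtain ⟨v, _, hv⟩ := h.1 u hu
    exact ⟨v, hv, fun w hw => by
      have := h.2.2 (u, w) hw (u, v) hv (Or.inl rfl)
      simpa using this⟩
  · intro v hv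
    obtain ⟨u, _, hu⟩ := h.2.1 v hv
    exact ⟨u, hu, fun w hw => by
      have := h.2.2 (w, v) hw (u, v) hu (Or.inr rfl)
      simpa using this⟩

theorem of_ver {I : Inst} {w : List (ℕ × ℕ) × List (ℕ × ℕ)} (h : Ver I w) : COL2PM I := by
  obtain ⟨h1, h2, h3, h4, h5, h6⟩ := h
  refine ⟨h1, {e | e ∈ w.1}, {e | e ∈ w.2}, isPM_of_LM h5 fun e he => ⟨true, h2 e he⟩,
    isPM_of_LM h6 fun e he => ?_, Set.disjoint_left.2 h4, h2⟩
  rcases h3 e he with h | h
  · exact ⟨_, h⟩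
  · exact ⟨_, h⟩

theorem LM_of_isPM {I : Inst} {M : Set (ℕ × ℕ)} (hB : IsColouredBipartite I)
    (h : IsPerfectMatching I M) [∀ e, Decidable (e ∈ M)] :
    LM I ((I.2.map Prod.fst).filter (fun e => decide (e ∈ M))) := by
  have hm : ∀ e, e ∈ (I.2.map Prod.fst).filter (fun e => decide (e ∈ M)) ↔ e ∈ M := by
    intro e
    simp only [List.mem_filter, decide_eq_true_eq, and_iff_right_iff_imp, List.mem_map]
    intro he
    obtain ⟨c, hc⟩ := h.1 e he
    exact ⟨_, hc, rfl⟩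
  have hUV : ∀ e ∈ M, e.1 ∈ I.1.1 ∧ e.2 ∈ I.1.2 := by
    intro e he
    obtain ⟨c, hc⟩ := h.1 e he
    exact hB.2.2.2.2 _ hc
  refine ⟨?_, ?_, ?_⟩
  · intro u hu
    obtain ⟨v, hv, _⟩ := h.2.1 u hu
    exact ⟨v, (hUV _ hv).2, (hm _).2 hv⟩
  · intro v hv
    obtain ⟨u, hu, _⟩ := h.2.2 v hv
    exact ⟨u, (hUV _ hu).1, (hm _).2 hu⟩
  · rintro ⟨a, b⟩ he ⟨a', b'⟩ hf hef
    rw [hm] at he hf
    simp only at hef
    rcases hef with rfl | rfl
    · rw [(h.2.1 a (hUV _ he).1).unique he hf]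
    · rw [(h.2.2 b (hUV _ he).2).unique he hf]

theorem sz_map_fst {α β : Type} [TEnc α] [TEnc β] (l : List (α × β)) :
    sz (l.map Prod.fst) ≤ sz l := by
  induction l with
  | nil => simp
  | cons a l ih =>
    obtain ⟨a, b⟩ := a
    simp only [List.map_cons, sz_list_cons, sz_pair]
    omega

theorem ver_of {I : Inst} (h : COL2PM I) : ∃ w : List (ℕ × ℕ) × List (ℕ × ℕ),
    sz w ≤ (2 * Polynomial.X + 1 : Polynomial ℕ).eval (sz I) ∧ Ver I w := by
  classical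
  obtain ⟨h1, M₁, M₂, h2, h3, h4, h5⟩ := h
  have hm : ∀ M : Set (ℕ × ℕ), IsPerfectMatching I M → ∀ e,
      e ∈ (I.2.map Prod.fst).filter (fun e => decide (e ∈ M)) ↔ e ∈ M := by
    intro M h e
    simp only [List.mem_filter, decide_eq_true_eq, and_iff_right_iff_imp, List.mem_map]
    intro he
    obtain ⟨c, hc⟩ := h.1 e he
    exact ⟨_, hc, rfl⟩
  refine ⟨((I.2.map Prod.fst).filter (fun e => decide (e ∈ M₁)),
    (I.2.map Prod.fst).filter (fun e => decide (e ∈ M₂))), ?_, h1, ?_, ?_, ?_,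
    LM_of_isPM h1 h2, LM_of_isPM h1 h3⟩
  · have h6 := sz_sublist (List.filter_sublist (p := fun e => decide (e ∈ M₁))
      (l := I.2.map Prod.fst))
    have h7 := sz_sublist (List.filter_sublist (p := fun e => decide (e ∈ M₂))
      (l := I.2.map Prod.fst))
    have h8 := sz_map_fst I.2
    have h9 : sz I = sz I.1 + sz I.2 + 1 := by
      obtain ⟨a, b⟩ := I
      simp
    simp only [sz_pair, Polynomial.eval_add, Polynomial.eval_mul, Polynomial.eval_X,
      Polynomial.eval_ofNat, Polynomial.eval_one]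
    omega
  · intro e he
    exact h5 e ((hm M₁ h2 e).1 he)
  · intro e he
    obtain ⟨c, hc⟩ := h3.1 e ((hm M₂ h3 e).1 he)
    cases c with
    | true => exact Or.inl hc
    | false => exact Or.inr hc
  · intro e he he'
    exact Set.disjoint_left.1 h4 ((hm M₁ h2 e).1 he) ((hm M₂ h3 e).1 he')

theorem inNPP : InNPP COL2PM :=
  inNPP_of_pp pp_ver (2 * Polynomial.X + 1) (fun _ h => ver_of h) fun _ _ h => of_ver h

end Pool.Agent.R544.CM
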